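import Mathlib

/-!
# Depth versus word length in the first Grigorchuk group

The optimal constant `λ` in `d(g) ≤ λ log₂ |g| + c` is `1`.  The elements `σ^n(ab)`, where
`σ(a) = aca`, `σ(b) = d`, `σ(c) = b`, `σ(d) = c`, have length at most `2^(n+1)`, fix the vertex
`1^n` and have section `ab` there, so their depth is at least `n + 1`.
-/

namespace Pool.Agent.Results.MP_40d7e0_al.DepthConstantOne

/-- Names of the four generators. -/
inductive Gen : Type
  | a | b | c | d

/-- The action of the four generators on the words over `{0, 1}` (`false` is `0`, `true` is `1`):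
`a(0w) = 1w`, `a(1w) = 0w`, `b(0w) = 0 a(w)`, `b(1w) = 1 c(w)`, `c(0w) = 0 a(w)`,
`c(1w) = 1 d(w)`, `d(0w) = 0 w`, `d(1w) = 1 b(w)`. -/
def act : Gen → List Bool → List Bool
  | _, [] => []
  | .a, x :: w => (!x) :: w
  | .b, false :: w => false :: act .a w
  | .b, true :: w => true :: act .c w
  | .c, false :: w => false :: act .a w
  | .c, true :: w => true :: act .d w
  | .d, false :: w => false :: w
  | .d, true :: w => true :: act .b w

theorem act_act (g : Gen) (w : List Bool) : act g (act g w) = w := by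
  induction w generalizing g with
  | nil => cases g <;> simp [act]
  | cons x w ih =>
    cases g <;> cases x <;> simp [act, ih]

/-- The generators as permutations of the set of vertices of the binary tree. -/
def gen (g : Gen) : Equiv.Perm (List Bool) where
  toFun := act g
  invFun := act g
  left_inv := act_act g
  right_inv := act_act g

/-- The element represented by a word in the generators. -/
def ev (w : List Gen) : Equiv.Perm (List Bool) := (w.map gen).prod

/-- The Grigorchuk group: the group of permutations of the vertices of the binary tree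
generated by `a`, `b`, `c`, `d`. -/
def Grigorchuk : Subgroup (Equiv.Perm (List Bool)) :=
  Subgroup.closure (Set.range gen)

/-- The word length of `g` with respect to `a`, `b`, `c`, `d`. -/
noncomputable def len (g : Equiv.Perm (List Bool)) : ℕ :=
  sInf {n : ℕ | ∃ w : List Gen, w.length = n ∧ ev w = g}

/-- `h` is the section of `g` at the vertex `u`. -/
def IsSection (g : Equiv.Perm (List Bool)) (u : List Bool) (h : Equiv.Perm (List Bool)) : Prop :=
  ∀ w : List Bool, g (u ++ w) = g u ++ h w

/-- The depth of `g`: the least `n` such that all sections of `g` at the vertices of level `n`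
lie in `{1, a, b, c, d}`. -/
noncomputable def depth (g : Equiv.Perm (List Bool)) : ℕ :=
  sInf {n : ℕ | ∀ u : List Bool, u.length = n →
    ∃ h ∈ ({1, gen .a, gen .b, gen .c, gen .d} : Set (Equiv.Perm (List Bool))), IsSection g u h}

@[simp] theorem gen_apply (g : Gen) (w : List Bool) : gen g w = act g w := rfl

@[simp] theorem ev_nil : ev [] = 1 := rfl

theorem ev_cons (x : Gen) (w : List Gen) : ev (x :: w) = gen x * ev w := by simp [ev]

theorem ev_append (v w : List Gen) : ev (v ++ w) = ev v * ev w := by simp [ev]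

theorem ev_nil' (w : List Gen) : ev w [] = [] := by
  induction w with
  | nil => rfl
  | cons x w ih => rw [ev_cons, Equiv.Perm.mul_apply, ih]; cases x <;> rfl

theorem gen_sq (g : Gen) : gen g * gen g = 1 := Equiv.ext (act_act g)

theorem key_bcd (w : List Bool) : act .b (act .c w) = act .d w ∧ act .c (act .d w) = act .b w ∧
    act .d (act .b w) = act .c w ∧ act .c (act .b w) = act .d w ∧ act .d (act .c w) = act .b w ∧
    act .b (act .d w) = act .c w := by
  induction w with
  | nil => simp [act]
  | cons x w ih =>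
    obtain ⟨h1, h2, h3, h4, h5, h6⟩ := ih
    cases x <;> simp [act, act_act, h1, h2, h3, h4, h5, h6]

/-- the product of two letters different from `a` is a letter or trivial -/
theorem two_letters (x y : Gen) (hx : x ≠ .a) (hy : y ≠ .a) :
    ∃ l : List Gen, l.length ≤ 1 ∧ gen x * gen y = ev l := by
  have h1 : gen .b * gen .c = gen .d := Equiv.ext fun w => (key_bcd w).1
  have h2 : gen .c * gen .d = gen .b := Equiv.ext fun w => (key_bcd w).2.1
  have h3 : gen .d * gen .b = gen .c := Equiv.ext fun w => (key_bcd w).2.2.1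
  have h4 : gen .c * gen .b = gen .d := Equiv.ext fun w => (key_bcd w).2.2.2.1
  have h5 : gen .d * gen .c = gen .b := Equiv.ext fun w => (key_bcd w).2.2.2.2.1
  have h6 : gen .b * gen .d = gen .c := Equiv.ext fun w => (key_bcd w).2.2.2.2.2
  cases x <;> cases y <;> first
    | exact absurd rfl hx
    | exact absurd rfl hy
    | exact ⟨[], by simp, by rw [gen_sq]; rfl⟩
    | exact ⟨[.b], by simp, h2.trans (by simp [ev])⟩
    | exact ⟨[.b], by simp, h5.trans (by simp [ev])⟩
    | exact ⟨[.c], by simp, h3.trans (by simp [ev])⟩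
    | exact ⟨[.c], by simp, h6.trans (by simp [ev])⟩
    | exact ⟨[.d], by simp, h1.trans (by simp [ev])⟩
    | exact ⟨[.d], by simp, h4.trans (by simp [ev])⟩

/-- sections of letters at level one -/
theorem letter_section (x : Gen) (v : Bool) :
    ∃ (v' : Bool) (l : List Gen), l.length ≤ 1 ∧ (x = .a → l = []) ∧
      ∀ t, act x (v :: t) = v' :: ev l t := by
  cases x <;> cases v
  · exact ⟨true, [], by simp, by simp, fun t => rfl⟩
  · exact ⟨false, [], by simp, by simp, fun t => rfl⟩
  · exact ⟨false, [.a], by simp, by simp, fun t => by simp [ev, act]⟩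
  · exact ⟨true, [.c], by simp, by simp, fun t => by simp [ev, act]⟩
  · exact ⟨false, [.a], by simp, by simp, fun t => by simp [ev, act]⟩
  · exact ⟨true, [.d], by simp, by simp, fun t => by simp [ev, act]⟩
  · exact ⟨false, [], by simp, by simp, fun t => by simp [act]⟩
  · exact ⟨true, [.b], by simp, by simp, fun t => by simp [ev, act]⟩

/-- sections at level one of a product of `n` letters are products of at most `(n+1)/2` letters -/
theorem section_len (n : ℕ) : ∀ w : List Gen, w.length = n → ∀ v : Bool,
    ∃ (v' : Bool) (l : List Gen), l.length ≤ (n + 1) / 2 ∧ ∀ t, ev w (v :: t) = v' :: ev l t := by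
  induction n using Nat.strong_induction_on with
  | _ n ih =>
    intro w hw v
    match w, hw with
    | [], hw => exact ⟨v, [], by simp, fun t => rfl⟩
    | [x], hw =>
      obtain ⟨v', l, h1, -, h2⟩ := letter_section x v
      refine ⟨v', l, ?_, fun t => ?_⟩
      · simp at hw; omega
      · rw [← h2]; simp [ev]
    | x :: y :: w, hw =>
      simp only [List.length_cons] at hw
      by_cases hx : x = .a
      · by_cases hy : y = .a
        · subst hx hy
          obtain ⟨v', l, h1, h2⟩ := ih w.length (by omega) w rfl v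
          refine ⟨v', l, by omega, fun t => ?_⟩
          rw [← h2, ev_cons, ev_cons, ← mul_assoc, gen_sq, one_mul]
        · obtain ⟨v1, l1, h1, h2⟩ := ih w.length (by omega) w rfl v
          obtain ⟨v2, l2, h3, -, h4⟩ := letter_section y v1
          obtain ⟨v3, l3, -, h5, h6⟩ := letter_section x v2
          refine ⟨v3, l3 ++ (l2 ++ l1), ?_, fun t => ?_⟩
          · rw [h5 hx]; simp; omega
          · rw [ev_cons, ev_cons, Equiv.Perm.mul_apply, Equiv.Perm.mul_apply, h2, gen_apply y, h4,
              gen_apply x, h6, ev_append, ev_append, Equiv.Perm.mul_apply, Equiv.Perm.mul_apply]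
      · by_cases hy : y = .a
        · obtain ⟨v1, l1, h1, h2⟩ := ih w.length (by omega) w rfl v
          obtain ⟨v2, l2, -, h5, h4⟩ := letter_section y v1
          obtain ⟨v3, l3, h3, -, h6⟩ := letter_section x v2
          refine ⟨v3, l3 ++ (l2 ++ l1), ?_, fun t => ?_⟩
          · rw [h5 hy]; simp; omega
          · rw [ev_cons, ev_cons, Equiv.Perm.mul_apply, Equiv.Perm.mul_apply, h2, gen_apply y, h4,
              gen_apply x, h6, ev_append, ev_append, Equiv.Perm.mul_apply, Equiv.Perm.mul_apply]
        · obtain ⟨l0, h0, h0'⟩ := two_letters x y hx hy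
          have hlen : (l0 ++ w).length < n := by simp; omega
          obtain ⟨v', l, h1, h2⟩ := ih (l0 ++ w).length hlen (l0 ++ w) rfl v
          refine ⟨v', l, by omega, fun t => ?_⟩
          rw [← h2, ev_cons, ev_cons, ← mul_assoc, h0', ev_append]

/-- elements of length at most `2^k` have all their sections at level `k` in `{1,a,b,c,d}` -/
theorem sections_pow (k : ℕ) : ∀ w : List Gen, w.length ≤ 2 ^ k → ∀ u : List Bool, u.length = k →
    ∃ l : List Gen, l.length ≤ 1 ∧ IsSection (ev w) u (ev l) := by
  induction k with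
  | zero =>
    intro w hw u hu
    rw [List.length_eq_zero_iff] at hu
    subst hu
    exact ⟨w, by simpa using hw, fun t => by simp [ev_nil']⟩
  | succ k ih =>
    intro w hw u hu
    match u, hu with
    | v :: u, hu =>
      simp only [List.length_cons, Nat.add_right_cancel_iff] at hu
      obtain ⟨v', l, h1, h2⟩ := section_len w.length w rfl v
      have h3 : l.length ≤ 2 ^ k := by
        rw [pow_succ] at hw
        omega
      obtain ⟨l', h4, h5⟩ := ih l h3 u hu
      refine ⟨l', h4, fun t => ?_⟩
      rw [List.cons_append, h2, h2, h5 t, List.cons_append]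

theorem ev_short (l : List Gen) (h : l.length ≤ 1) :
    ev l ∈ ({1, gen .a, gen .b, gen .c, gen .d} : Set (Equiv.Perm (List Bool))) := by
  match l, h with
  | [], _ => simp
  | [x], _ => cases x <;> simp [ev]

theorem depth_le (k : ℕ) (w : List Gen) (hw : w.length ≤ 2 ^ k) : depth (ev w) ≤ k := by
  apply Nat.sInf_le
  intro u hu
  obtain ⟨l, h1, h2⟩ := sections_pow k w hw u hu
  exact ⟨ev l, ev_short l h1, h2⟩

theorem ev_mem (w : List Gen) : ev w ∈ Grigorchuk := by
  apply Subgroup.list_prod_mem
  intro x hx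
  obtain ⟨y, -, rfl⟩ := List.mem_map.1 hx
  exact Subgroup.subset_closure ⟨y, rfl⟩

/-- every element of the Grigorchuk group is a product of generators -/
theorem exists_word (g : Equiv.Perm (List Bool)) (hg : g ∈ Grigorchuk) : ∃ w, ev w = g := by
  unfold Grigorchuk at hg
  induction hg using Subgroup.closure_induction with
  | mem x hx =>
    obtain ⟨y, rfl⟩ := hx
    exact ⟨[y], by simp [ev]⟩
  | one => exact ⟨[], rfl⟩
  | mul x y _ _ hx hy =>
    obtain ⟨v, rfl⟩ := hx
    obtain ⟨w, rfl⟩ := hy
    exact ⟨v ++ w, ev_append v w⟩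
  | inv x _ hx =>
    obtain ⟨v, rfl⟩ := hx
    refine ⟨v.reverse, ?_⟩
    induction v with
    | nil => simp
    | cons y v ih =>
      rw [List.reverse_cons, ev_append, ih (ev_mem v), ev_cons y v, mul_inv_rev]
      congr 1

theorem len_spec (g : Equiv.Perm (List Bool)) (hg : g ∈ Grigorchuk) :
    ∃ w : List Gen, w.length = len g ∧ ev w = g := by
  obtain ⟨w, hw⟩ := exists_word g hg
  exact Nat.sInf_mem (s := {n : ℕ | ∃ w : List Gen, w.length = n ∧ ev w = g}) ⟨_, w, rfl, hw⟩

theorem len_le (w : List Gen) : len (ev w) ≤ w.length := Nat.sInf_le ⟨w, rfl, rfl⟩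

theorem len_pos (g : Equiv.Perm (List Bool)) (hg : g ∈ Grigorchuk) (h1 : g ≠ 1) : 0 < len g := by
  obtain ⟨w, h, h'⟩ := len_spec g hg
  rw [← h]
  rcases w with _ | ⟨x, w⟩
  · exact absurd h'.symm h1
  · simp

/-- the substitution `σ` on letters -/
def sub : Gen → List Gen
  | .a => [.a, .c, .a]
  | .b => [.d]
  | .c => [.b]
  | .d => [.c]

/-- the substitution `σ` on words -/
def sg (w : List Gen) : List Gen := w.flatMap sub

theorem ev_sub (x : Gen) (t : List Bool) : ev (sub x) (true :: t) = true :: act x t := by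
  cases x <;> simp [sub, ev, act]

theorem ev_sg (w : List Gen) (t : List Bool) : ev (sg w) (true :: t) = true :: ev w t := by
  induction w with
  | nil => rfl
  | cons x w ih =>
    have : sg (x :: w) = sub x ++ sg w := rfl
    rw [this, ev_append, Equiv.Perm.mul_apply, ih, ev_sub, ev_cons, Equiv.Perm.mul_apply]
    rfl

/-- the words `σ^n(ab)` -/
def wd : ℕ → List Gen
  | 0 => [.a, .b]
  | n + 1 => sg (wd n)

/-- number of letters `a` -/
def na : List Gen → ℕ
  | [] => 0
  | .a :: w => na w + 1
  | _ :: w => na w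

/-- number of letters different from `a` -/
def nx : List Gen → ℕ
  | [] => 0
  | .a :: w => nx w
  | _ :: w => nx w + 1

theorem na_nx (w : List Gen) : na w + nx w = w.length := by
  induction w with
  | nil => rfl
  | cons x w ih => cases x <;> simp [na, nx] <;> omega

theorem na_sg (w : List Gen) : na (sg w) = 2 * na w := by
  induction w with
  | nil => rfl
  | cons x w ih =>
    have : sg (x :: w) = sub x ++ sg w := rfl
    rw [this]
    cases x <;> simp [na, sub, ih] <;> omega

theorem nx_sg (w : List Gen) : nx (sg w) = na w + nx w := by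
  induction w with
  | nil => rfl
  | cons x w ih =>
    have : sg (x :: w) = sub x ++ sg w := rfl
    rw [this]
    cases x <;> simp [na, nx, sub, ih] <;> omega

theorem wd_count (n : ℕ) : na (wd n) = 2 ^ n ∧ nx (wd n) = 2 ^ n := by
  induction n with
  | zero => simp [wd, na, nx]
  | succ n ih =>
    obtain ⟨h1, h2⟩ := ih
    refine ⟨?_, ?_⟩
    · rw [wd, na_sg, h1]; ring
    · rw [wd, nx_sg, h1, h2]; ring

theorem wd_length (n : ℕ) : (wd n).length = 2 ^ (n + 1) := by
  rw [← na_nx, (wd_count n).1, (wd_count n).2]; ring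

theorem ev_wd (n : ℕ) (t : List Bool) :
    ev (wd n) (List.replicate n true ++ t) = List.replicate n true ++ ev [.a, .b] t := by
  induction n with
  | zero => rfl
  | succ n ih =>
    rw [List.replicate_succ, List.cons_append, wd, ev_sg, ih, List.cons_append]

/-- a section in `{1,a,b,c,d}` has all its sections in this set -/
theorem sub_section (g : Equiv.Perm (List Bool)) (u v : List Bool) (l : List Gen)
    (hl : l.length ≤ 1) (h : IsSection g u (ev l)) :
    ∃ l' : List Gen, l'.length ≤ 1 ∧ IsSection g (u ++ v) (ev l') := by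
  have h1 : l.length ≤ 2 ^ v.length := hl.trans Nat.one_le_two_pow
  obtain ⟨l', h2, h3⟩ := sections_pow v.length l h1 v rfl
  refine ⟨l', h2, fun t => ?_⟩
  rw [List.append_assoc, h, h3 t, h, List.append_assoc]

theorem not_short : ∀ l : List Gen, l.length ≤ 1 → ev [.a, .b] ≠ ev l := by
  intro l hl h
  have h1 := congrArg (fun e : Equiv.Perm (List Bool) => e [false, false]) h
  have h2 := congrArg (fun e : Equiv.Perm (List Bool) => e [true, true, true]) h
  match l, hl with
  | [], _ => simp [ev, act] at h1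
  | [x], _ => cases x <;> simp [ev, act] at h1

theorem short_of_mem (h : Equiv.Perm (List Bool))
    (hh : h ∈ ({1, gen .a, gen .b, gen .c, gen .d} : Set (Equiv.Perm (List Bool)))) :
    ∃ l : List Gen, l.length ≤ 1 ∧ ev l = h := by
  simp only [Set.mem_insert_iff, Set.mem_singleton_iff] at hh
  rcases hh with rfl | rfl | rfl | rfl | rfl
  · exact ⟨[], by simp, rfl⟩
  · exact ⟨[.a], by simp, by simp [ev]⟩
  · exact ⟨[.b], by simp, by simp [ev]⟩
  · exact ⟨[.c], by simp, by simp [ev]⟩
  · exact ⟨[.d], by simp, by simp [ev]⟩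

theorem depth_wd (n : ℕ) : n + 1 ≤ depth (ev (wd n)) := by
  have hne : {m : ℕ | ∀ u : List Bool, u.length = m →
      ∃ h ∈ ({1, gen .a, gen .b, gen .c, gen .d} : Set (Equiv.Perm (List Bool))),
        IsSection (ev (wd n)) u h}.Nonempty := by
    refine ⟨n + 1, fun u hu => ?_⟩
    obtain ⟨l, h1, h2⟩ := sections_pow (n + 1) (wd n) (wd_length n).le u hu
    exact ⟨ev l, ev_short l h1, h2⟩
  have hmem := Nat.sInf_mem hne
  by_contra hcon
  push Not at hcon
  have hd : depth (ev (wd n)) ≤ n := by omega
  obtain ⟨h, hh, hs⟩ := hmem (List.replicate (depth (ev (wd n))) true) (by simp [depth])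
  obtain ⟨l, hl, rfl⟩ := short_of_mem h hh
  obtain ⟨l', hl', hs'⟩ := sub_section _ _
    (List.replicate (n - depth (ev (wd n))) true) l hl hs
  rw [← List.replicate_add, Nat.add_sub_cancel' hd] at hs'
  apply not_short l' hl'
  apply Equiv.ext
  intro t
  have h1 := hs' t
  have h2 := ev_wd n t
  have h3 := ev_wd n []
  rw [List.append_nil] at h3
  rw [h2, h3, ev_nil', List.append_nil] at h1
  exact List.append_cancel_left h1

/-- The set of the constants `λ` for which `d(g) ≤ λ log₂ |g| + c` holds with some `c`. -/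
def Good : Set ℝ :=
  {l : ℝ | ∃ c : ℝ, ∀ g ∈ Grigorchuk, g ≠ 1 → (depth g : ℝ) ≤ l * Real.logb 2 (len g) + c}

theorem one_mem : (1 : ℝ) ∈ Good := by
  refine ⟨1, fun g hg h1 => ?_⟩
  obtain ⟨w, hw, rfl⟩ := len_spec g hg
  have hpos := len_pos _ hg h1
  have h2 : w.length ≤ 2 ^ (Nat.clog 2 (len (ev w))) := by
    rw [hw]
    exact Nat.le_pow_clog one_lt_two _
  have h3 := depth_le _ w h2
  have h4 : ((Nat.clog 2 (len (ev w)) : ℕ) : ℝ) ≤ Real.logb 2 (len (ev w)) + 1 := by
    have h5 := Real.ceil_logb_natCast (b := 2) (r := ((len (ev w) : ℕ) : ℝ)) (by positivity)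
    have h6 : (⌈Real.logb ((2 : ℕ) : ℝ) ((len (ev w) : ℕ) : ℝ)⌉ : ℤ)
        = ((Nat.clog 2 (len (ev w)) : ℕ) : ℤ) := by
      rw [h5, Int.clog_natCast]
    have h7 := Int.ceil_lt_add_one (Real.logb ((2 : ℕ) : ℝ) ((len (ev w) : ℕ) : ℝ))
    rw [h6] at h7
    push_cast at h7
    exact h7.le
  have h8 : (depth (ev w) : ℝ) ≤ ((Nat.clog 2 (len (ev w)) : ℕ) : ℝ) := by exact_mod_cast h3
  linarith

theorem le_of_mem (l : ℝ) (hl : l ∈ Good) : 1 ≤ l := by
  obtain ⟨c, hc⟩ := hl
  by_contra hcon
  push Not at hcon
  have key : ∀ n : ℕ, ((n : ℝ) + 1) * (1 - l) ≤ c ∨ l < 0 := by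
    intro n
    by_cases h0 : l < 0
    · exact Or.inr h0
    · left
      push Not at h0
      have hne : ev (wd n) ≠ 1 := by
        intro h
        have h1 := depth_wd n
        have h2 : depth (ev ([] : List Gen)) ≤ 0 := depth_le 0 [] (by simp)
        rw [ev_nil, ← h] at h2
        omega
      have h1 := hc _ (ev_mem (wd n)) hne
      have h2 := depth_wd n
      have h3 : (((n + 1 : ℕ)) : ℝ) ≤ (depth (ev (wd n)) : ℝ) := by exact_mod_cast h2
      have h4 : Real.logb 2 (len (ev (wd n))) ≤ (n : ℝ) + 1 := by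
        have h5 : ((len (ev (wd n)) : ℕ) : ℝ) ≤ (2 : ℝ) ^ (n + 1) := by
          have := len_le (wd n)
          rw [wd_length] at this
          exact_mod_cast this
        have h6 : (0 : ℝ) < ((len (ev (wd n)) : ℕ) : ℝ) := by
          exact_mod_cast len_pos _ (ev_mem _) hne
        calc Real.logb 2 (len (ev (wd n))) ≤ Real.logb 2 ((2 : ℝ) ^ (n + 1)) :=
              Real.logb_le_logb_of_le one_lt_two h6 h5
          _ = (n : ℝ) + 1 := by
              rw [Real.logb_pow, Real.logb_self_eq_one one_lt_two]; push_cast; ring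
      push_cast at h3
      nlinarith
  rcases lt_or_ge l 0 with h0 | h0
  · -- negative constants: compare with the constant `0`
    obtain ⟨n, hn⟩ := exists_nat_gt c
    have hne : ev (wd n) ≠ 1 := by
      intro h
      have h1 := depth_wd n
      have h2 : depth (ev ([] : List Gen)) ≤ 0 := depth_le 0 [] (by simp)
      rw [ev_nil, ← h] at h2
      omega
    have h1 := hc _ (ev_mem (wd n)) hne
    have h2 := depth_wd n
    have h3 : (((n + 1 : ℕ)) : ℝ) ≤ (depth (ev (wd n)) : ℝ) := by exact_mod_cast h2
    have h6 : (1 : ℝ) ≤ ((len (ev (wd n)) : ℕ) : ℝ) := by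
      exact_mod_cast len_pos _ (ev_mem _) hne
    have h7 : 0 ≤ Real.logb 2 (len (ev (wd n))) := Real.logb_nonneg one_lt_two h6
    push_cast at h3
    nlinarith
  · obtain ⟨n, hn⟩ := exists_nat_gt (c / (1 - l))
    have hpos : 0 < 1 - l := by linarith
    rcases key n with h | h
    · rw [div_lt_iff₀ hpos] at hn
      nlinarith
    · linarith

/-- There are no constants `λ < 1` and `c` with `d(g) ≤ λ log₂ |g| + c` for all `g ≠ 1` in the
first Grigorchuk group, and the infimum `λ*` of the constants `λ` for which such a `c` exists is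
equal to `1` and is attained.  (Also the depth is well defined on the whole group.) -/
theorem result :
    (¬ ∃ l c : ℝ, l < 1 ∧ ∀ g ∈ Grigorchuk, g ≠ 1 →
      (depth g : ℝ) ≤ l * Real.logb 2 (len g) + c) ∧
    IsLeast {l : ℝ | ∃ c : ℝ, ∀ g ∈ Grigorchuk, g ≠ 1 →
      (depth g : ℝ) ≤ l * Real.logb 2 (len g) + c} 1 ∧
    sInf {l : ℝ | ∃ c : ℝ, ∀ g ∈ Grigorchuk, g ≠ 1 →
      (depth g : ℝ) ≤ l * Real.logb 2 (len g) + c} = 1 ∧
    (∀ g ∈ Grigorchuk, ∃ n : ℕ, ∀ u : List Bool, u.length = n →
      ∃ h ∈ ({1, gen .a, gen .b, gen .c, gen .d} : Set (Equiv.Perm (List Bool))),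
        IsSection g u h) := by
  have h : IsLeast {l : ℝ | ∃ c : ℝ, ∀ g ∈ Grigorchuk, g ≠ 1 →
      (depth g : ℝ) ≤ l * Real.logb 2 (len g) + c} 1 := ⟨one_mem, fun l hl => le_of_mem l hl⟩
  refine ⟨?_, h, h.csInf_eq, ?_⟩
  · rintro ⟨l, c, hl, hc⟩
    exact absurd (le_of_mem l ⟨c, hc⟩) (by linarith)
  · intro g hg
    obtain ⟨w, rfl⟩ := exists_word g hg
    refine ⟨w.length, fun u hu => ?_⟩
    obtain ⟨l, h1, h2⟩ := sections_pow w.length w Nat.lt_two_pow_self.le u hu
    exact ⟨ev l, ev_short l h1, h2⟩

end Pool.Agent.Results.MP_40d7e0_al.DepthConstantOne
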